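import Pool.Agent.R5.LL.Count

/-!
# Linear growth of the pair-degree threshold for (2,2)-acceptable Hamilton cycles

`m2 n` is the least pair degree of a family `F` of `4`-element subsets of `[n]` such that every
Hamilton cycle of `K_n` has two disjoint edges `e`, `f` with `e ∪ f ∈ F`. We prove `n ≤ 4096 m2 n`
for all `n ≥ 6`.

Proof: the local lemma for random bijections (positions on the cycle to vertices), in a counting
form. A bad event fixes the vertices at four positions `i, i + 1, j, j + 1`; conditioned on the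
absence of any bad events with other positions and values its probability is at most
`1 / (n (n - 1) (n - 2) (n - 3))`, by a switching argument.
-/

set_option linter.unusedSectionVars false

namespace Pool.Agent.Results.MP_626dc7_co.LinearPairDegree

open Pool.Agent.R5.LL Finset

/-- The edge between the positions `i` and `i + 1` (modulo `n`) of the Hamilton cycle
`σ 0, σ 1, …, σ (n - 1)` of `K_n`. -/
def edge {n : ℕ} (σ : Equiv.Perm (Fin n)) (i : Fin n) : Finset (Fin n) := {σ i, σ (finRotate n i)}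

/-- The Hamilton cycle given by the cyclic ordering `σ` is (2,2)-acceptable for `F`: it has no two
vertex-disjoint edges whose union is in `F`. -/
def Acceptable {n : ℕ} (F : Finset (Finset (Fin n))) (σ : Equiv.Perm (Fin n)) : Prop :=
  ∀ i j, Disjoint (edge σ i) (edge σ j) → edge σ i ∪ edge σ j ∉ F

/-- The 2-degree of `F`: the largest number of members of `F` which contain a given pair. -/
def pairDegree {n : ℕ} (F : Finset (Finset (Fin n))) : ℕ :=
  (univ.filter (fun D : Finset (Fin n) => D.card = 2)).sup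
    (fun D => (F.filter (fun A => D ⊆ A)).card)

/-- `m_2((2,2), n)`: the least 2-degree of a family of 4-subsets of `[n]` for which no Hamilton
cycle of `K_n` is (2,2)-acceptable. -/
noncomputable def m2 (n : ℕ) : ℕ :=
  sInf {d | ∃ F : Finset (Finset (Fin n)), (∀ A ∈ F, A.card = 4) ∧ (∀ σ, ¬ Acceptable F σ) ∧
    pairDegree F = d}

lemma exists_family {n : ℕ} (hn : 4 ≤ n) :
    ∃ F : Finset (Finset (Fin n)), (∀ A ∈ F, A.card = 4) ∧ ∀ σ, ¬ Acceptable F σ := by
  refine ⟨univ.filter (fun A => A.card = 4), fun A hA => (Finset.mem_filter.1 hA).2, ?_⟩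
  intro σ h
  obtain ⟨N, rfl⟩ : ∃ N, n = N + 1 := ⟨n - 1, by omega⟩
  have h0 : finRotate (N + 1) ⟨0, by omega⟩ = ⟨1, by omega⟩ := finRotate_of_lt (k := 0) (by omega)
  have h2 : finRotate (N + 1) ⟨2, by omega⟩ = ⟨3, by omega⟩ := finRotate_of_lt (k := 2) (by omega)
  have hne : ∀ a b : Fin (N + 1), a.val ≠ b.val → σ a ≠ σ b := fun a b hab h' =>
    hab (congrArg Fin.val (σ.injective h'))
  have e0 : edge σ ⟨0, by omega⟩ = {σ ⟨0, by omega⟩, σ ⟨1, by omega⟩} := by rw [edge, h0]
  have e2 : edge σ ⟨2, by omega⟩ = {σ ⟨2, by omega⟩, σ ⟨3, by omega⟩} := by rw [edge, h2]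
  have hdis : Disjoint (edge σ ⟨0, by omega⟩) (edge σ ⟨2, by omega⟩) := by
    rw [e0, e2, Finset.disjoint_left]
    intro x hx hx'
    simp only [mem_insert, mem_singleton] at hx hx'
    rcases hx with rfl | rfl <;> rcases hx' with hx' | hx' <;> exact hne _ _ (by simp) hx'
  have hc : (edge σ ⟨0, by omega⟩ ∪ edge σ ⟨2, by omega⟩).card = 4 := by
    rw [Finset.card_union_of_disjoint hdis, e0, e2, Finset.card_pair (hne _ _ (by simp)),
      Finset.card_pair (hne _ _ (by simp))]
  exact h _ _ hdis (Finset.mem_filter.2 ⟨mem_univ _, hc⟩)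

/-- The quantity `m_2((2,2), n)` grows linearly: `n ≤ 4096 m_2((2,2), n)` for all `n ≥ 6`. -/
theorem result : ∀ n : ℕ, 6 ≤ n → n ≤ 4096 * m2 n := by
  intro n hn
  have hne : {d | ∃ F : Finset (Finset (Fin n)), (∀ A ∈ F, A.card = 4) ∧
      (∀ σ, ¬ Acceptable F σ) ∧ pairDegree F = d}.Nonempty := by
    obtain ⟨F, h1, h2⟩ := exists_family (n := n) (by omega)
    exact ⟨_, F, h1, h2, rfl⟩
  obtain ⟨F, hF, hno, hd⟩ := Nat.sInf_mem hne
  change pairDegree F = m2 n at hd
  by_contra hcon
  push Not at hcon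
  have hd2 : ∀ x y : Fin n, x ≠ y → d2 F x y ≤ m2 n := by
    intro x y hxy
    rw [← hd, pairDegree, d2]
    have h1 : (F.filter (fun A => x ∈ A ∧ y ∈ A)) = (F.filter (fun A => ({x, y} : Finset _) ⊆ A)) := by
      ext A
      simp [Finset.insert_subset_iff]
    rw [h1]
    exact Finset.le_sup (s := univ.filter (fun D : Finset (Fin n) => D.card = 2))
      (f := fun D : Finset (Fin n) => (F.filter (fun A => D ⊆ A)).card)
      (Finset.mem_filter.2 ⟨mem_univ _, Finset.card_pair hxy⟩)
  obtain ⟨σ, hσ⟩ := exists_good (finRotate n) F hF (m2 n) hd2 (by simpa using hn)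
    (by simpa using hcon.le)
  apply hno σ
  intro i j hdis hmem
  have hrot : ∀ k : Fin n, k ≠ finRotate n k := by
    intro k h
    obtain ⟨N, rfl⟩ : ∃ N, n = N + 1 := ⟨n - 1, by omega⟩
    rw [finRotate_apply] at h
    have h1 : (1 : Fin (N + 1)) = 0 := by simpa using h.symm
    have h2 := congrArg Fin.val h1
    rw [Fin.val_one'] at h2
    simp only [Fin.val_zero] at h2
    rw [Nat.mod_eq_of_lt (by omega)] at h2
    omega
  have hv : ∀ x ∈ edge σ i, ∀ y ∈ edge σ j, x ≠ y := fun x hx y hy h => 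
    Finset.disjoint_left.1 hdis hx (h ▸ hy)
  have mi : σ i ∈ edge σ i := by simp [edge]
  have mi' : σ (finRotate n i) ∈ edge σ i := by simp [edge]
  have mj : σ j ∈ edge σ j := by simp [edge]
  have mj' : σ (finRotate n j) ∈ edge σ j := by simp [edge]
  have v1 : σ i ≠ σ (finRotate n i) := fun h => hrot i (σ.injective h)
  have v6 : σ j ≠ σ (finRotate n j) := fun h => hrot j (σ.injective h)
  have v2 := hv _ mi _ mj
  have v3 := hv _ mi _ mj'
  have v4 := hv _ mi' _ mj
  have v5 := hv _ mi' _ mj'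
  have hset : ({σ i, σ (finRotate n i), σ j, σ (finRotate n j)} : Finset (Fin n)) =
      edge σ i ∪ edge σ j := by
    ext z
    simp only [edge, mem_union, mem_insert, mem_singleton]
    tauto
  refine hσ (i, j, (σ i, σ (finRotate n i), σ j, σ (finRotate n j))) ?_ ⟨rfl, rfl, rfl, rfl⟩
  simp only [EE, VT, mem_filter, mem_univ, true_and]
  refine ⟨⟨hrot i, fun h => v2 (by rw [h]), fun h => v3 (by rw [← h]), fun h => v4 (by rw [h]),
    fun h => v5 (by rw [h]), hrot j⟩, ⟨v1, v2, v3, v4, v5, v6⟩, ?_⟩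
  rw [hset]
  exact hmem

end Pool.Agent.Results.MP_626dc7_co.LinearPairDegree
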